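import Pool.Agent.Helper78.DT.Goals

/-!
# DT packet MOM (MP_34c247_lc, project of helper78): the moment bound
-/

set_option autoImplicit false

namespace Pool.Agent.Helper50.DT

open Finset Pool.Agent.Helper78.DT
open scoped Classical

/-- a function all of whose values are attained twice has at most `k` values -/
theorem card_image_le {k q : ℕ} (τ : Fin (2 * k) → Fin q)
    (h : ∀ i, ∃ j, j ≠ i ∧ τ j = τ i) : (univ.image τ).card ≤ k := by
  have h1 := card_eq_sum_card_image τ univ
  rw [card_univ, Fintype.card_fin] at h1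
  have h2 : ∑ _b ∈ univ.image τ, 2 ≤ ∑ b ∈ univ.image τ, (univ.filter fun a => τ a = b).card := by
    refine sum_le_sum fun b hb => ?_
    obtain ⟨i, _, rfl⟩ := mem_image.1 hb
    obtain ⟨j, hj, hji⟩ := h i
    exact one_lt_card.2 ⟨j, by simp [hji], i, by simp, hj⟩
  rw [← h1, sum_const, smul_eq_mul] at h2
  omega

theorem card_twice (k q : ℕ) :
    (univ.filter fun τ : Fin (2 * k) → Fin q => ∀ i, ∃ j, j ≠ i ∧ τ j = τ i).card ≤
      k ^ (2 * k) * q ^ k := by
  have hc : Fintype.card ((Fin (2 * k) → Fin k) × (Fin k → Fin q)) = k ^ (2 * k) * q ^ k := by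
    rw [Fintype.card_prod, Fintype.card_fun, Fintype.card_fun, Fintype.card_fin, Fintype.card_fin,
      Fintype.card_fin]
  rw [← hc, ← card_univ]
  refine card_le_card_of_surjOn
    (fun p : (Fin (2 * k) → Fin k) × (Fin k → Fin q) => p.2 ∘ p.1) ?_
  intro τ hτ
  rw [coe_filter] at hτ
  have hτ' : ∀ i, ∃ j, j ≠ i ∧ τ j = τ i := hτ.2
  have h1 := card_image_le τ hτ'
  obtain ⟨e⟩ : Nonempty ({x // x ∈ univ.image τ} ↪ Fin k) := by
    apply Function.Embedding.nonempty_of_card_le
    rw [Fintype.card_coe, Fintype.card_fin]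
    exact h1
  refine ⟨(fun i => e ⟨τ i, mem_image_of_mem τ (mem_univ i)⟩,
    Function.extend e Subtype.val (fun j => τ ⟨0, by have := j.2; omega⟩)), by simp, ?_⟩
  funext i
  simp only [Function.comp_apply]
  rw [e.injective.extend_apply]

theorem mom : MomStmt := by
  intro Ω _ q k Z hZ h0
  have h1 : av (fun w => (∑ a, Z a w) ^ (2 * k)) =
      ∑ τ : Fin (2 * k) → Fin q, av (fun w => ∏ i, Z (τ i) w) := by
    rw [← av_sum]
    refine av_congr fun w => ?_
    rw [Fintype.sum_pow]
  rw [h1]
  have h2 : ∀ τ : Fin (2 * k) → Fin q, av (fun w => ∏ i, Z (τ i) w) ≤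
      if (∀ i, ∃ j, j ≠ i ∧ τ j = τ i) then 1 else 0 := by
    intro τ
    split_ifs with h
    · refine av_le_of_le zero_le_one fun w => ?_
      refine (le_abs_self _).trans ?_
      rw [abs_prod]
      exact prod_le_one (fun _ _ => abs_nonneg _) fun i _ => hZ _ w
    · push Not at h
      exact (h0 τ h).le
  refine (sum_le_sum fun τ _ => h2 τ).trans ?_
  rw [sum_boole]
  exact_mod_cast card_twice k q

end Pool.Agent.Helper50.DT
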